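import Pool.Agent.MP_977787_an.Defs

-- part MP_977787_an.Swap
section

/-!
The swap operator attached to a system of cells and characters.
-/

set_option linter.unusedSectionVars false

namespace Pool.Agent.MP_977787_an

open MeasureTheory Filter Topology ComplexConjugate
open scoped InnerProductSpace ENNReal

/-- A partition of `X` into countably many cells of finite measure with a family of unimodular
functions that is an orthonormal basis of `L²` of each cell. -/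
structure CellSystem (X : Type*) [MeasurableSpace X] (μ : Measure X) (ι : Type)
    [DecidableEq ι] where
  c : X → ι
  χ : ι → X → ℂ
  meas_c : ∀ m, MeasurableSet (c ⁻¹' {m})
  fin_c : ∀ m, μ (c ⁻¹' {m}) ≠ ⊤
  meas_χ : ∀ l, Measurable (χ l)
  norm_χ : ∀ l x, ‖χ l x‖ = 1
  orth : ∀ m l l', ∫ x in c ⁻¹' {m}, conj (χ l x) * χ l' x ∂μ = if l = l' then 1 else 0
  comp : ∀ m (g : X → ℂ), MemLp g 2 (μ.restrict (c ⁻¹' {m})) →
    (∀ l, ∫ x in c ⁻¹' {m}, conj (χ l x) * g x ∂μ = 0) → g =ᵐ[μ.restrict (c ⁻¹' {m})] 0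

namespace CellSystem

variable {X : Type*} [MeasurableSpace X] {μ : Measure X} {ι : Type} [DecidableEq ι]
  (S : CellSystem X μ ι)

lemma finMeas (m : ι) : IsFiniteMeasure (μ.restrict (S.c ⁻¹' {m})) :=
  isFiniteMeasure_restrict.2 (S.fin_c m)

lemma memLp_e (i : ι × ι) (p : ℝ≥0∞) :
    MemLp ((S.c ⁻¹' {i.1}).indicator (S.χ i.2)) p μ := by
  rw [memLp_indicator_iff_restrict (S.meas_c _)]
  have := S.finMeas i.1
  exact MemLp.of_bound (S.meas_χ _).aestronglyMeasurable 1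
    (Eventually.of_forall fun x => (S.norm_χ _ _).le)

/-- The basis vectors. -/
noncomputable def e (i : ι × ι) : Lp ℂ 2 μ := (S.memLp_e i 2).toLp _

lemma e_ae (i : ι × ι) : (S.e i : X → ℂ) =ᵐ[μ] (S.c ⁻¹' {i.1}).indicator (S.χ i.2) :=
  MemLp.coeFn_toLp _

lemma inner_e (i : ι × ι) (g : Lp ℂ 2 μ) :
    ⟪S.e i, g⟫_ℂ = ∫ x in S.c ⁻¹' {i.1}, conj (S.χ i.2 x) * g x ∂μ := by
  rw [L2.inner_def, ← integral_indicator (S.meas_c _)]
  apply integral_congr_ae
  filter_upwards [S.e_ae i] with x hx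
  rw [hx]
  by_cases h : x ∈ S.c ⁻¹' {i.1}
  · simp [Set.indicator_of_mem h, mul_comm]
  · simp [Set.indicator_of_notMem h]

lemma orthonormal_e : Orthonormal ℂ S.e := by
  rw [orthonormal_iff_ite]
  intro i j
  rw [inner_e]
  by_cases h : i.1 = j.1
  · have : ∫ x in S.c ⁻¹' {i.1}, conj (S.χ i.2 x) * (S.e j : X → ℂ) x ∂μ =
        ∫ x in S.c ⁻¹' {i.1}, conj (S.χ i.2 x) * S.χ j.2 x ∂μ := by
      apply setIntegral_congr_ae (S.meas_c _)
      filter_upwards [S.e_ae j] with x hx hx'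
      rw [hx, Set.indicator_of_mem (h ▸ hx')]
    rw [this, S.orth]
    congr 1
    simp [Prod.ext_iff, h]
  · have : ∫ x in S.c ⁻¹' {i.1}, conj (S.χ i.2 x) * (S.e j : X → ℂ) x ∂μ =
        ∫ x in S.c ⁻¹' {i.1}, (0 : ℂ) ∂μ := by
      apply setIntegral_congr_ae (S.meas_c _)
      filter_upwards [S.e_ae j] with x hx hx'
      rw [hx, Set.indicator_of_notMem, mul_zero]
      intro h'
      exact h ((Set.mem_singleton_iff.1 hx').symm.trans (Set.mem_singleton_iff.1 h'))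
    rw [this, if_neg (fun h' => h (by rw [h']))]
    simp

variable [Countable ι]

lemma ae_zero_of_cells {g : X → ℂ} (h : ∀ m, g =ᵐ[μ.restrict (S.c ⁻¹' {m})] 0) :
    g =ᵐ[μ] 0 := by
  have h' : ∀ m, ∀ᵐ x ∂μ, x ∈ S.c ⁻¹' {m} → g x = 0 := fun m =>
    (ae_restrict_iff' (S.meas_c m)).1 (h m)
  rw [← ae_all_iff] at h'
  filter_upwards [h'] with x hx
  exact hx (S.c x) rfl

lemma eq_zero_of_inner (g : Lp ℂ 2 μ) (h : ∀ i, ⟪S.e i, g⟫_ℂ = 0) : g = 0 := by
  apply Lp.ext
  refine (S.ae_zero_of_cells fun m => S.comp m g ((Lp.memLp g).restrict _) fun l => ?_).trans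
    (Lp.coeFn_zero ℂ 2 μ).symm
  exact (S.inner_e (m, l) g).symm.trans (h _)

lemma span_orth {κ : Type*} (σ : κ → ι × ι) (hσ : Function.Surjective σ) :
    (Submodule.span ℂ (Set.range (S.e ∘ σ)))ᗮ = ⊥ := by
  rw [Submodule.eq_bot_iff]
  intro g hg
  apply S.eq_zero_of_inner
  intro i
  obtain ⟨j, rfl⟩ := hσ i
  exact Submodule.inner_right_of_mem_orthogonal
    (Submodule.subset_span (Set.mem_range_self (f := S.e ∘ σ) j)) hg

/-- The Hilbert basis `e`. -/
noncomputable def b : HilbertBasis (ι × ι) ℂ (Lp ℂ 2 μ) :=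
  HilbertBasis.mkOfOrthogonalEqBot (S.orthonormal_e.comp id Function.injective_id)
    (S.span_orth id Function.surjective_id)

/-- The Hilbert basis `e ∘ swap`. -/
noncomputable def b' : HilbertBasis (ι × ι) ℂ (Lp ℂ 2 μ) :=
  HilbertBasis.mkOfOrthogonalEqBot (S.orthonormal_e.comp Prod.swap Prod.swap_injective)
    (S.span_orth Prod.swap Prod.swap_surjective)

/-- The swap operator. -/
noncomputable def U : Lp ℂ 2 μ ≃ₗᵢ[ℂ] Lp ℂ 2 μ := S.b.repr.trans S.b'.repr.symm

lemma inner_U (i : ι × ι) (g : Lp ℂ 2 μ) : ⟪S.e i.swap, S.U g⟫_ℂ = ⟪S.e i, g⟫_ℂ := by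
  have h1 : S.b'.repr (S.U g) = S.b.repr g := by simp [U]
  have h2 := congrArg (fun v => v i) h1
  simp only [HilbertBasis.repr_apply_apply] at h2
  simpa [b, b'] using h2

lemma U_U (g : Lp ℂ 2 μ) : S.U (S.U g) = g := by
  rw [← sub_eq_zero]
  apply S.eq_zero_of_inner
  intro i
  rw [inner_sub_right, ← S.inner_U i g, ← S.inner_U i.swap (S.U g), Prod.swap_swap, sub_self]

lemma U_symm (g : Lp ℂ 2 μ) : S.U.symm g = S.U g := by
  apply S.U.injective
  rw [U_U, LinearIsometryEquiv.apply_symm_apply]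

lemma U_e (m : ι) : S.U (S.e (m, m)) = S.e (m, m) := by
  rw [← sub_eq_zero]
  apply S.eq_zero_of_inner
  intro i
  have h := S.inner_U i.swap (S.e (m, m))
  rw [Prod.swap_swap] at h
  rw [inner_sub_right, h, orthonormal_iff_ite.1 S.orthonormal_e,
    orthonormal_iff_ite.1 S.orthonormal_e, sub_eq_zero]
  congr 1
  simp [Prod.ext_iff, and_comm]

/-- The kernel of the swap operator. -/
noncomputable def K (x y : X) : ℂ := S.χ (S.c y) x * conj (S.χ (S.c x) y)

lemma norm_K (x y : X) : ‖S.K x y‖ = 1 := by simp [K, S.norm_χ]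

lemma meas_K : Measurable (fun p : X × X => S.K p.1 p.2) := by
  let _ : MeasurableSpace ι := ⊤
  have hc : Measurable S.c := measurable_to_countable' S.meas_c
  have hχ : Measurable (fun p : X × ι => S.χ p.2 p.1) :=
    measurable_from_prod_countable_left fun l => S.meas_χ l
  have h1 : Measurable (fun p : X × X => S.χ (S.c p.2) p.1) :=
    hχ.comp (measurable_fst.prodMk (hc.comp measurable_snd))
  have h2 : Measurable (fun p : X × X => S.χ (S.c p.1) p.2) :=
    hχ.comp (measurable_snd.prodMk (hc.comp measurable_fst))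
  exact h1.mul (Complex.continuous_conj.measurable.comp h2)

variable [SFinite μ]

/-- The integral operator with kernel `K`. -/
noncomputable def T (f : X → ℂ) (x : X) : ℂ := ∫ y, S.K x y * f y ∂μ

lemma integrable_K {f : X → ℂ} (hf : Integrable f μ) (x : X) :
    Integrable (fun y => S.K x y * f y) μ :=
  hf.bdd_mul (c := 1) (S.meas_K.comp (measurable_const.prodMk measurable_id)).aestronglyMeasurable
    (Eventually.of_forall fun y => (S.norm_K x y).le)

lemma norm_T_le (f : X → ℂ) (x : X) : ‖S.T f x‖ ≤ ∫ y, ‖f y‖ ∂μ := by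
  refine (norm_integral_le_integral_norm _).trans (le_of_eq ?_)
  simp [S.norm_K]

lemma meas_T (f : Lp ℂ 1 μ) : StronglyMeasurable (S.T f) := by
  have : StronglyMeasurable (Function.uncurry fun x y => S.K x y * (f : X → ℂ) y) :=
    S.meas_K.stronglyMeasurable.mul ((Lp.stronglyMeasurable f).comp_measurable measurable_snd)
  exact this.integral_prod_right

lemma memLp_T (f : Lp ℂ 1 μ) : MemLp (S.T f) ⊤ μ :=
  memLp_top_of_bound (S.meas_T f).aestronglyMeasurable _
    (Eventually.of_forall fun x => S.norm_T_le f x)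

/-- The integral operator as a linear map `L¹ → L^∞`. -/
noncomputable def Tl : Lp ℂ 1 μ →ₗ[ℂ] Lp ℂ ⊤ μ where
  toFun f := (S.memLp_T f).toLp _
  map_add' f g := by
    rw [← MemLp.toLp_add]
    apply MemLp.toLp_congr
    refine Eventually.of_forall fun x => ?_
    simp only [Pi.add_apply, T]
    rw [← integral_add (S.integrable_K (L1.integrable_coeFn f) x)
      (S.integrable_K (L1.integrable_coeFn g) x)]
    apply integral_congr_ae
    filter_upwards [Lp.coeFn_add f g] with y hy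
    rw [hy, Pi.add_apply, mul_add]
  map_smul' a f := by
    rw [RingHom.id_apply, ← MemLp.toLp_const_smul]
    apply MemLp.toLp_congr
    refine Eventually.of_forall fun x => ?_
    simp only [Pi.smul_apply, T, smul_eq_mul]
    rw [← integral_const_mul]
    apply integral_congr_ae
    filter_upwards [Lp.coeFn_smul a f] with y hy
    rw [hy, Pi.smul_apply, smul_eq_mul]
    ring

lemma norm_Tl_le (f : Lp ℂ 1 μ) : ‖S.Tl f‖ ≤ 1 * ‖f‖ := by
  rw [one_mul, L1.norm_eq_integral_norm]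
  have h : S.Tl f = (S.memLp_T f).toLp _ := rfl
  rw [h, Lp.norm_toLp]
  apply ENNReal.toReal_le_of_le_ofReal (integral_nonneg fun _ => norm_nonneg _)
  rw [eLpNorm_exponent_top]
  exact eLpNormEssSup_le_of_ae_bound (Eventually.of_forall fun x => S.norm_T_le f x)

/-- The integral operator as a bounded map `L¹ → L^∞`. -/
noncomputable def Tc : Lp ℂ 1 μ →L[ℂ] Lp ℂ ⊤ μ := S.Tl.mkContinuous 1 S.norm_Tl_le

lemma norm_Tc_le : ‖S.Tc‖ ≤ 1 := LinearMap.mkContinuous_norm_le _ zero_le_one _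

lemma Tc_ae (f : Lp ℂ 1 μ) : (S.Tc f : X → ℂ) =ᵐ[μ] S.T f := MemLp.coeFn_toLp (S.memLp_T f)

lemma coeff_T (f : Lp ℂ 1 μ) (l m : ι) :
    ∫ x in S.c ⁻¹' {l}, conj (S.χ m x) * S.T f x ∂μ =
      ∫ y in S.c ⁻¹' {m}, conj (S.χ l y) * f y ∂μ := by
  have := S.finMeas l
  have hf := L1.integrable_coeFn f
  have hint : Integrable (Function.uncurry fun x y => conj (S.χ m x) * (S.K x y * (f : X → ℂ) y))
      ((μ.restrict (S.c ⁻¹' {l})).prod μ) := by
    have h1 : Integrable (fun p : X × X => (f : X → ℂ) p.2) ((μ.restrict (S.c ⁻¹' {l})).prod μ) :=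
      hf.comp_snd _
    have h2 : Measurable (fun p : X × X => conj (S.χ m p.1) * S.K p.1 p.2) :=
      (Complex.continuous_conj.measurable.comp ((S.meas_χ m).comp measurable_fst)).mul S.meas_K
    have h3 := h1.bdd_mul (c := 1) h2.aestronglyMeasurable
      (Eventually.of_forall fun p => by simp [S.norm_K, S.norm_χ])
    refine h3.congr (Eventually.of_forall fun p => ?_)
    simp only [Function.uncurry]
    ring
  simp only [T]
  simp_rw [← integral_const_mul]
  rw [integral_integral_swap hint, ← integral_indicator (S.meas_c m)]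
  apply integral_congr_ae
  refine Eventually.of_forall fun y => ?_
  have h1 : ∫ x in S.c ⁻¹' {l}, conj (S.χ m x) * (S.K x y * (f : X → ℂ) y) ∂μ =
      ∫ x in S.c ⁻¹' {l}, (conj (S.χ m x) * S.χ (S.c y) x) * (conj (S.χ l y) * f y) ∂μ := by
    apply setIntegral_congr_fun (S.meas_c _)
    intro x hx
    simp only [K]
    rw [Set.mem_singleton_iff.1 (Set.mem_preimage.1 hx)]
    ring
  simp only
  rw [h1, integral_mul_const, S.orth]
  by_cases h : m = S.c y
  · rw [if_pos h, one_mul, Set.indicator_of_mem (by simp [h])]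
  · rw [if_neg h, zero_mul, Set.indicator_of_notMem (by simpa using fun h' => h h'.symm)]

lemma Tc_eq_U (f : Lp ℂ 1 μ) (g : Lp ℂ 2 μ) (h : (f : X → ℂ) =ᵐ[μ] (g : X → ℂ)) :
    (S.Tc f : X → ℂ) =ᵐ[μ] (S.U g : X → ℂ) := by
  refine (S.Tc_ae f).trans ?_
  have : (S.T f - (S.U g : X → ℂ)) =ᵐ[μ] 0 := by
    apply S.ae_zero_of_cells
    intro l
    have := S.finMeas l
    have hT : MemLp (S.T f) 2 (μ.restrict (S.c ⁻¹' {l})) :=
      ((S.memLp_T f).restrict _).mono_exponent le_top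
    have hU : MemLp (S.U g : X → ℂ) 2 (μ.restrict (S.c ⁻¹' {l})) := (Lp.memLp _).restrict _
    apply S.comp l _ (hT.sub hU)
    intro m
    have hb : ∀ u : X → ℂ, MemLp u 2 (μ.restrict (S.c ⁻¹' {l})) →
        Integrable (fun x => conj (S.χ m x) * u x) (μ.restrict (S.c ⁻¹' {l})) := fun u hu =>
      (hu.integrable one_le_two).bdd_mul (c := 1)
        (Complex.continuous_conj.measurable.comp (S.meas_χ m)).aestronglyMeasurable
        (Eventually.of_forall fun x => by simp [S.norm_χ])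
    simp only [Pi.sub_apply, mul_sub]
    rw [integral_sub (hb _ hT) (hb _ hU), S.coeff_T, sub_eq_zero]
    have h1 := S.inner_U (m, l) g
    rw [S.inner_e, S.inner_e] at h1
    simp only [Prod.swap] at h1
    rw [h1]
    apply integral_congr_ae
    filter_upwards [ae_restrict_of_ae h] with y hy
    rw [hy]
  filter_upwards [this] with x hx
  exact sub_eq_zero.1 hx

end CellSystem

end Pool.Agent.MP_977787_an

end

-- part MP_977787_an.Cube
section

/-!
The cell system of unit cubes and exponentials on `ℝⁿ`, and the counterexample.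
-/

set_option linter.unusedSectionVars false

namespace Pool.Agent.MP_977787_an

open MeasureTheory Filter Topology ComplexConjugate Set UnitAddTorus
open scoped InnerProductSpace ENNReal

attribute [local instance] instMeasureSpaceUnitAddCircle

lemma cell_eq {n : ℕ} (m : Fin n → ℤ) :
    (fun (x : Fin n → ℝ) (i : Fin n) => ⌈x i⌉ - 1) ⁻¹' {m} =
      {x : Fin n → ℝ | ∀ i, x i ∈ Ioc ((m i : ℝ)) ((m i : ℝ) + 1)} := by
  ext x
  simp only [mem_preimage, mem_singleton_iff, mem_ofPred_eq, funext_iff, mem_Ioc]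
  refine forall_congr' fun i => ?_
  rw [sub_eq_iff_eq_add, Int.ceil_eq_iff]
  push_cast
  simp

lemma meas_cell {n : ℕ} (a : Fin n → ℝ) :
    MeasurableSet {x : Fin n → ℝ | ∀ i, x i ∈ Ioc (a i) (a i + 1)} :=
  MeasurableSet.univ_pi' (fun _ => measurableSet_Ioc)

lemma mp_val {n : ℕ} (a : Fin n → ℝ) :
    MeasurePreserving (fun t : UnitAddTorus (Fin n) => (measurableEquivPiIoc a t).1) volume
      (volume.restrict {x : Fin n → ℝ | ∀ i, x i ∈ Ioc (a i) (a i + 1)}) :=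
  (measurePreserving_subtype_coe (meas_cell a)).comp (measurePreserving_equivPiIoc a)

/-- Unit cubes and exponentials. -/
noncomputable def cubeSystem (n : ℕ) : CellSystem (Fin n → ℝ) volume (Fin n → ℤ) where
  c x i := ⌈x i⌉ - 1
  χ l x := mFourier l (fun i => (x i : UnitAddCircle))
  meas_c m := by rw [cell_eq]; exact meas_cell _
  fin_c m := by
    rw [cell_eq]
    have := (mp_val (fun i => (m i : ℝ))).map_eq
    have h2 : IsFiniteMeasure (volume.restrict
        {x : Fin n → ℝ | ∀ i, x i ∈ Ioc ((m i : ℝ)) ((m i : ℝ) + 1)}) := by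
      rw [← this]
      have : IsProbabilityMeasure (volume : Measure UnitAddCircle) :=
        inferInstanceAs (IsProbabilityMeasure (AddCircle.haarAddCircle (T := 1)))
      infer_instance
    exact isFiniteMeasure_restrict.1 h2
  meas_χ l := (mFourier l).continuous.measurable.comp
    (measurable_pi_lambda _ fun i => AddCircle.measurable_mk'.comp (measurable_pi_apply i))
  norm_χ l x := by
    simp only [mFourier, ContinuousMap.coe_mk, norm_prod, fourier_apply, Circle.norm_coe,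
      Finset.prod_const_one]
  orth m l l' := by
    rw [cell_eq, ← integral_preimage (fun t => conj (mFourier l t) * mFourier l' t)]
    have := orthonormal_iff_ite.1 (orthonormal_mFourier (d := Fin n)) l l'
    rw [← this, ContinuousMap.inner_toLp]
    simp [mul_comm]
  comp m g hg h := by
    rw [cell_eq] at hg h ⊢
    set a : Fin n → ℝ := fun i => (m i : ℝ) with ha
    have hφ := mp_val a
    have hG : MemLp (fun t : UnitAddTorus (Fin n) => g (measurableEquivPiIoc a t).1) 2 volume :=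
      hg.comp_measurePreserving hφ
    have hback : ∀ x : Fin n → ℝ, x ∈ {x : Fin n → ℝ | ∀ i, x i ∈ Ioc (a i) (a i + 1)} →
        (measurableEquivPiIoc a (fun i => (x i : UnitAddCircle))).1 = x := by
      intro x hx
      have := (measurableEquivPiIoc a).apply_symm_apply ⟨x, hx⟩
      exact congrArg Subtype.val this
    have hcoef : ∀ l, mFourierCoeff (hG.toLp _ : UnitAddTorus (Fin n) → ℂ) l = 0 := by
      intro l
      have h1 : mFourierCoeff (hG.toLp _ : UnitAddTorus (Fin n) → ℂ) l =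
          mFourierCoeff (fun t : UnitAddTorus (Fin n) => g (measurableEquivPiIoc a t).1) l := by
        apply integral_congr_ae
        filter_upwards [hG.coeFn_toLp] with t ht
        rw [ht]
      rw [h1, mFourierCoeff_eq_integral _ _ a, ← h l]
      apply setIntegral_congr_fun (meas_cell a)
      intro x hx
      simp only [smul_eq_mul]
      rw [hback x hx, mFourier_neg]
    have h0 := hasSum_mFourier_series_L2 (hG.toLp _)
    simp only [hcoef, zero_smul] at h0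
    have h1 : hG.toLp _ = 0 := h0.unique hasSum_zero
    have h2 : (fun t : UnitAddTorus (Fin n) => g (measurableEquivPiIoc a t).1) =ᵐ[volume] 0 := by
      refine hG.coeFn_toLp.symm.trans ?_
      rw [h1]
      exact Lp.coeFn_zero _ _ _
    have h3 : MeasurePreserving (measurableEquivPiIoc a).symm (Measure.comap Subtype.val volume)
        volume := (measurePreserving_equivPiIoc a).symm
    have h4 := h3.quasiMeasurePreserving.ae_eq_comp h2
    rw [EventuallyEq, ae_restrict_iff_subtype (meas_cell a)]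
    filter_upwards [h4] with x hx
    have hx' : g (measurableEquivPiIoc a ((measurableEquivPiIoc a).symm x)).1 = 0 := hx
    rwa [MeasurableEquiv.apply_symm_apply] at hx'

lemma not_regular_of_ratio {X : Type*} [MeasurableSpace X] (μ : Measure X)
    (A : Lp ℂ 2 μ ≃L[ℂ] Lp ℂ 2 μ) (h : ∀ p C, 0 < p → Admissible μ A p C → C ≤ 1) :
    ¬ HasRegularConstants μ A := by
  rintro ⟨σ, hσ, hσ1, C, hadm, -, hlim, -, hanti⟩
  have h1 : (2 - σ / 2) ∈ Ioo (2 - σ) 2 := ⟨by linarith, by linarith⟩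
  have h2 : (2 - σ / 4) ∈ Ioo (2 - σ) 2 := ⟨by linarith, by linarith⟩
  have h3 : C (2 - σ / 4) < 1 :=
    (hanti h1 h2 (by linarith)).trans_le (h _ _ (by linarith) (hadm _ ⟨h1.1, h1.2.le⟩))
  have h4 : ∀ᶠ p in 𝓝[<] (2 : ℝ), C p ≤ C (2 - σ / 4) := by
    filter_upwards [Ioo_mem_nhdsLT h2.2] with p hp
    exact (hanti h2 ⟨h2.1.trans hp.1, hp.2⟩ hp.1).le
  exact absurd (le_of_tendsto hlim h4) (not_le.2 h3)

namespace CellSystem

variable {X : Type*} [MeasurableSpace X] {μ : Measure X} {ι : Type} [DecidableEq ι]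
  (S : CellSystem X μ ι)

lemma measure_cell (m : ι) : μ (S.c ⁻¹' {m}) = 1 := by
  have h := S.orth m m m
  have h2 : ∀ x, conj (S.χ m x) * S.χ m x = 1 := by
    intro x
    rw [Complex.conj_mul', S.norm_χ]
    simp
  simp only [h2, if_true, integral_const, MeasurableSet.univ, measureReal_restrict_apply,
    univ_inter, Complex.real_smul, mul_one] at h
  have h3 : μ.real (S.c ⁻¹' {m}) = 1 := by exact_mod_cast h
  rw [← ENNReal.toReal_eq_one_iff]
  exact h3

lemma eLpNorm_e (i : ι × ι) (p : ℝ≥0∞) (hp : p ≠ 0) (hp' : p ≠ ⊤) :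
    eLpNorm (S.e i : X → ℂ) p μ = 1 := by
  rw [eLpNorm_congr_ae (S.e_ae i)]
  have : eLpNorm ((S.c ⁻¹' {i.1}).indicator (S.χ i.2)) p μ =
      eLpNorm ((S.c ⁻¹' {i.1}).indicator (fun _ => (1 : ℂ))) p μ := by
    apply eLpNorm_congr_norm_ae
    refine Eventually.of_forall fun x => ?_
    by_cases h : x ∈ S.c ⁻¹' {i.1}
    · simp [Set.indicator_of_mem h, S.norm_χ]
    · simp [Set.indicator_of_notMem h]
  rw [this, eLpNorm_indicator_const (S.meas_c _) hp hp', S.measure_cell]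
  simp

variable [Countable ι] [SFinite μ]

/-- The scaled swap operator. -/
noncomputable def V (r : ℝ) (hr : r ≠ 0) : Lp ℂ 2 μ ≃L[ℂ] Lp ℂ 2 μ :=
  S.U.toContinuousLinearEquiv.trans
    (ContinuousLinearEquiv.smulLeft (R₁ := ℂ) (Units.mk0 (r : ℂ) (by exact_mod_cast hr)))

lemma V_apply (r : ℝ) (hr : r ≠ 0) (g : Lp ℂ 2 μ) : S.V r hr g = (r : ℂ) • S.U g := rfl

lemma V_symm_apply (r : ℝ) (hr : r ≠ 0) (g : Lp ℂ 2 μ) :
    (S.V r hr).symm g = (r : ℂ)⁻¹ • S.U g := by
  apply (S.V r hr).injective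
  have : (r : ℂ) ≠ 0 := by exact_mod_cast hr
  rw [ContinuousLinearEquiv.apply_symm_apply, V_apply, map_smul, S.U_U, smul_smul,
    mul_inv_cancel₀ this, one_smul]

lemma adjoint_V (r : ℝ) (hr : r ≠ 0) (g : Lp ℂ 2 μ) :
    ContinuousLinearMap.adjoint (S.V r hr : Lp ℂ 2 μ →L[ℂ] Lp ℂ 2 μ) g = (r : ℂ) • S.U g := by
  have h1 : (S.V r hr : Lp ℂ 2 μ →L[ℂ] Lp ℂ 2 μ) =
      (r : ℂ) • (S.U : Lp ℂ 2 μ →L[ℂ] Lp ℂ 2 μ) := by
    ext1 f
    rfl
  rw [h1, map_smulₛₗ, LinearIsometryEquiv.adjoint_eq_symm]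
  rw [smul_apply, ← S.U_symm]
  simp only [Complex.conj_ofReal]
  rfl

lemma smul_Tc_eq (r : ℝ) (f : Lp ℂ 1 μ) (g : Lp ℂ 2 μ) (h : (f : X → ℂ) =ᵐ[μ] (g : X → ℂ)) :
    (((r : ℂ) • S.Tc) f : X → ℂ) =ᵐ[μ] (((r : ℂ) • S.U g : Lp ℂ 2 μ) : X → ℂ) := by
  rw [smul_apply]
  filter_upwards [Lp.coeFn_smul (r : ℂ) (S.Tc f), Lp.coeFn_smul (r : ℂ) (S.U g),
    S.Tc_eq_U f g h] with x h1 h2 h3
  rw [h1, h2, Pi.smul_apply, Pi.smul_apply, h3]

lemma special_V (r : ℝ) (hr : 0 < r) (hr1 : r ≤ 1) :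
    IsSpecialHadamard μ (r ^ 2) (S.V r hr.ne') where
  bounded_one_top := by
    refine ⟨(r : ℂ) • S.Tc, ?_, fun f g h => S.smul_Tc_eq r f g h⟩
    refine (norm_smul_le (r : ℂ) S.Tc).trans ?_
    rw [Complex.norm_real, Real.norm_of_nonneg hr.le]
    exact mul_le_one₀ hr1 (norm_nonneg _) S.norm_Tc_le
  adjoint_eq := by
    ext1 g
    have : (r : ℂ) ≠ 0 := by exact_mod_cast hr.ne'
    rw [S.adjoint_V, smul_apply, ContinuousLinearEquiv.coe_coe,
      S.V_symm_apply, smul_smul]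
    congr 1
    push_cast
    field_simp
  adjoint_bounded_one_top := by
    refine ⟨_, (r : ℂ) • S.Tc, le_rfl, fun f g h => ?_⟩
    rw [S.adjoint_V]
    exact S.smul_Tc_eq r f g h

lemma not_regular_V (m : ι) (r : ℝ) (hr : 0 < r) : ¬ HasRegularConstants μ (S.V r hr.ne') := by
  apply not_regular_of_ratio
  rintro p C hp ⟨-, hC⟩
  have hp0 : ENNReal.ofReal p ≠ 0 := by simpa using hp
  have hV : S.V r hr.ne' (S.e (m, m)) = (r : ℂ) • S.e (m, m) := by rw [V_apply, U_e]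
  have hne : S.e (m, m) ≠ 0 := S.orthonormal_e.ne_zero _
  have hmem : MemLp (S.e (m, m) : X → ℂ) (ENNReal.ofReal p) μ :=
    (S.memLp_e (m, m) _).ae_eq (S.e_ae _).symm
  have hnorm : ∀ q : ℝ≥0∞, q ≠ 0 → q ≠ ⊤ →
      (eLpNorm (S.V r hr.ne' (S.e (m, m)) : X → ℂ) q μ).toReal = r := by
    intro q hq hq'
    rw [hV, eLpNorm_congr_ae (Lp.coeFn_smul _ _), eLpNorm_const_smul, S.eLpNorm_e _ _ hq hq']
    simp [abs_of_pos hr]
  have := hC _ hne hmem (by rw [hV]; exact (hmem.const_smul _).ae_eq (Lp.coeFn_smul _ _).symm)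
  rw [hnorm _ hp0 ENNReal.ofReal_ne_top, hnorm 2 (by simp) (by simp),
    S.eLpNorm_e _ _ hp0 ENNReal.ofReal_ne_top, S.eLpNorm_e _ 2 (by simp) (by simp),
    div_self (by simp [hr.ne'])] at this
  exact this

end CellSystem

theorem exists_not_regular (n : ℕ) (k : ℝ) (hk : 0 < k) (hk1 : k ≤ 1) :
    ∃ A : Lp ℂ 2 (volume : Measure (Fin n → ℝ)) ≃L[ℂ] Lp ℂ 2 (volume : Measure (Fin n → ℝ)),
      IsSpecialHadamard volume k A ∧ ¬ HasRegularConstants volume A := by
  have hr : 0 < √k := Real.sqrt_pos.2 hk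
  refine ⟨(cubeSystem n).V (√k) hr.ne', ?_, (cubeSystem n).not_regular_V 0 _ hr⟩
  have := (cubeSystem n).special_V (√k) hr (Real.sqrt_le_one.2 hk1)
  rwa [Real.sq_sqrt hk.le] at this

end Pool.Agent.MP_977787_an

end

-- part MP_977787_an.Interp
section

/-!
Riesz-Thorin interpolation between `L¹ → L^∞` and `L² → L²`, in bilinear form, and the
admissibility of `k ^ (1 / p - 1 / 2)`.
-/

set_option linter.unusedSectionVars false

namespace Pool.Agent.MP_977787_an

open MeasureTheory Filter Topology ComplexConjugate Set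
open scoped InnerProductSpace ENNReal

variable {X : Type*} [MeasurableSpace X] {μ : Measure X}

lemma exists_family (s : SimpleFunc X ℂ) (hs : Integrable s μ) :
    ∃ v : ℂ → Lp ℂ 2 μ, ∀ h : ℂ → ℂ, h 0 = 0 →
      ((∑ a ∈ s.range, h a • v a : Lp ℂ 2 μ) : X → ℂ) =ᵐ[μ] fun x => h (s x) := by
  classical
  rw [SimpleFunc.integrable_iff] at hs
  refine ⟨fun a => if ha : a = 0 then 0 else
    indicatorConstLp 2 (s.measurableSet_fiber a) (hs a ha).ne (1 : ℂ), fun h h0 => ?_⟩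
  have key : ∀ a : ℂ, ((h a • (if ha : a = 0 then 0 else
      indicatorConstLp 2 (s.measurableSet_fiber a) (hs a ha).ne (1 : ℂ)) : Lp ℂ 2 μ) : X → ℂ)
      =ᵐ[μ] fun x => if s x = a then h a else 0 := by
    intro a
    by_cases ha : a = 0
    · rw [dif_pos ha, smul_zero]
      filter_upwards [Lp.coeFn_zero ℂ 2 μ] with x hx
      rw [hx, ha, h0]
      simp
    · rw [dif_neg ha]
      filter_upwards [Lp.coeFn_smul (h a)
        (indicatorConstLp 2 (s.measurableSet_fiber a) (hs a ha).ne (1 : ℂ)),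
        indicatorConstLp_coeFn (p := 2) (hs := s.measurableSet_fiber a) (hμs := (hs a ha).ne)
          (c := (1 : ℂ))] with x h1 h2
      rw [h1, Pi.smul_apply, h2]
      by_cases hx : s x = a
      · rw [if_pos hx, indicator_of_mem (by simpa using hx)]
        simp
      · rw [if_neg hx, indicator_of_notMem (by simpa using hx)]
        simp
  have h2 : ∀ᵐ x ∂μ, ∀ a ∈ s.range, ((h a • (if ha : a = 0 then 0 else
      indicatorConstLp 2 (s.measurableSet_fiber a) (hs a ha).ne (1 : ℂ)) : Lp ℂ 2 μ) : X → ℂ) x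
      = if s x = a then h a else 0 :=
    (eventually_all_finset _).2 fun a _ => key a
  filter_upwards [Lp.coeFn_finsetSum s.range (fun a => (h a • (if ha : a = 0 then 0 else
      indicatorConstLp 2 (s.measurableSet_fiber a) (hs a ha).ne (1 : ℂ)) : Lp ℂ 2 μ)), h2]
    with x hx hx2
  rw [hx, Finset.sum_apply, Finset.sum_congr rfl hx2, Finset.sum_ite_eq]
  simp

/-- The analytic family `a |a|^(p (1 + z) / 2 - 1)`. -/
noncomputable def phi (p : ℝ) (z a : ℂ) : ℂ := a * (‖a‖ : ℂ) ^ ((p : ℂ) * (1 + z) / 2 - 1)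

lemma phi_zero (p : ℝ) (z : ℂ) : phi p z 0 = 0 := by simp [phi]

lemma norm_phi {p : ℝ} (hp : 0 < p) {z : ℂ} (hz : 0 ≤ z.re) (a : ℂ) :
    ‖phi p z a‖ = ‖a‖ ^ (p * (1 + z.re) / 2) := by
  by_cases ha : a = 0
  · rw [ha, phi_zero, norm_zero, Real.zero_rpow]
    positivity
  · have h : 0 < ‖a‖ := norm_pos_iff.2 ha
    rw [phi, norm_mul, Complex.norm_cpow_eq_rpow_re_of_pos h]
    have : ((p : ℂ) * (1 + z) / 2 - 1).re = p * (1 + z.re) / 2 - 1 := by simp
    rw [this, Real.rpow_sub_one h.ne']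
    field_simp

lemma phi_theta {p : ℝ} (hp : 0 < p) (a : ℂ) : phi p ((2 / p - 1 : ℝ) : ℂ) a = a := by
  have : (p : ℂ) ≠ 0 := by exact_mod_cast hp.ne'
  have h : (p : ℂ) * (1 + ((2 / p - 1 : ℝ) : ℂ)) / 2 - 1 = 0 := by
    push_cast
    field_simp
    ring
  rw [phi, h]
  simp

lemma diff_phi (p : ℝ) (a : ℂ) : Differentiable ℂ (fun z => phi p z a) := by
  by_cases ha : a = 0
  · simp [ha, phi_zero]
  · have h : ((‖a‖ : ℝ) : ℂ) ≠ 0 := by simpa using ha
    unfold phi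
    refine Differentiable.const_mul ?_ _
    exact Differentiable.const_cpow (by fun_prop) (Or.inl h)

lemma norm_phi_le {p : ℝ} (hp : 0 < p) {z : ℂ} (hz : 0 ≤ z.re) (hz1 : z.re ≤ 1) (a : ℂ) :
    ‖phi p z a‖ ≤ (max 1 ‖a‖) ^ p := by
  rw [norm_phi hp hz]
  refine (Real.rpow_le_rpow (norm_nonneg _) (le_max_right 1 _) (by positivity)).trans ?_
  apply Real.rpow_le_rpow_of_exponent_le (le_max_left _ _)
  nlinarith

lemma norm_sq_eq (u : Lp ℂ 2 μ) : ‖u‖ ^ 2 = ∫ x, ‖u x‖ ^ 2 ∂μ := by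
  rw [← inner_self_eq_norm_sq (𝕜 := ℂ), L2.inner_def, ← integral_re (L2.integrable_inner u u)]
  simp only [inner_self_eq_norm_sq]

lemma interp_simple (A : Lp ℂ 2 μ →L[ℂ] Lp ℂ 2 μ) (M : ℝ) (hM0 : 0 ≤ M)
    (hM : ∀ f, ‖A f‖ ≤ M * ‖f‖)
    (h1 : ∀ g : Lp ℂ 2 μ, Integrable g μ → ∀ᵐ x ∂μ, ‖A g x‖ ≤ ∫ y, ‖g y‖ ∂μ)
    {p : ℝ} (hp1 : 1 ≤ p) (hp2 : p ≤ 2) (s t : SimpleFunc X ℂ) (hs : Integrable s μ)
    (ht : Integrable t μ) (f g : Lp ℂ 2 μ) (hf : (f : X → ℂ) =ᵐ[μ] s) (hg : (g : X → ℂ) =ᵐ[μ] t) :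
    ‖⟪g, A f⟫_ℂ‖ ≤ M ^ (2 - 2 / p) *
      ((∫ x, ‖s x‖ ^ p ∂μ) ^ p⁻¹ * (∫ x, ‖t x‖ ^ p ∂μ) ^ p⁻¹) := by
  have hp : 0 < p := by linarith
  obtain ⟨v, hv⟩ := exists_family s hs
  obtain ⟨v', hv'⟩ := exists_family t ht
  set Is := ∫ x, ‖s x‖ ^ p ∂μ with hIs
  set It := ∫ x, ‖t x‖ ^ p ∂μ with hIt
  have hIs0 : 0 ≤ Is := integral_nonneg fun x => by positivity
  have hIt0 : 0 ≤ It := integral_nonneg fun x => by positivity
  set u : ℂ → Lp ℂ 2 μ := fun z => ∑ a ∈ s.range, phi p z a • v a with hu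
  set w : ℂ → Lp ℂ 2 μ := fun z => ∑ b ∈ t.range, conj (phi p z (conj b)) • v' b with hw
  have hu_ae : ∀ z, (u z : X → ℂ) =ᵐ[μ] fun x => phi p z (s x) := fun z =>
    hv (phi p z) (phi_zero p z)
  have hw_ae : ∀ z, (w z : X → ℂ) =ᵐ[μ] fun x => conj (phi p z (conj (t x))) := fun z =>
    hv' (fun b => conj (phi p z (conj b))) (by simp [phi_zero])
  set F : ℂ → ℂ := fun z => ∑ b ∈ t.range, ∑ a ∈ s.range,
    phi p z (conj b) * (phi p z a * ⟪v' b, A (v a)⟫_ℂ) with hF
  have hFeq : ∀ z, F z = ⟪w z, A (u z)⟫_ℂ := by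
    intro z
    simp only [hF, hu, hw, map_sum, map_smul, sum_inner, inner_sum, inner_smul_left,
      inner_smul_right, Complex.conj_conj, Finset.mul_sum]
    rw [Finset.sum_comm]
    refine Finset.sum_congr rfl fun a _ => Finset.sum_congr rfl fun b _ => ?_
    ring
  have hdiff : Differentiable ℂ F := by
    apply Differentiable.fun_sum
    intro b _
    apply Differentiable.fun_sum
    intro a _
    exact (diff_phi p _).mul ((diff_phi p _).mul_const _)
  have hbdd : BddAbove ((norm ∘ F) '' Complex.HadamardThreeLines.verticalClosedStrip 0 1) := by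
    refine ⟨∑ b ∈ t.range, ∑ a ∈ s.range,
      (max 1 ‖conj b‖) ^ p * ((max 1 ‖a‖) ^ p * ‖⟪v' b, A (v a)⟫_ℂ‖), ?_⟩
    rintro _ ⟨z, hz, rfl⟩
    refine (norm_sum_le _ _).trans (Finset.sum_le_sum fun b _ => ?_)
    refine (norm_sum_le _ _).trans (Finset.sum_le_sum fun a _ => ?_)
    rw [norm_mul, norm_mul]
    have e1 := norm_phi_le hp hz.1 hz.2 (conj b)
    have e2 := norm_phi_le hp hz.1 hz.2 a
    gcongr
  have ha : ∀ z ∈ Complex.re ⁻¹' {0}, ‖F z‖ ≤ M * (Is * It) ^ (2⁻¹ : ℝ) := by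
    intro z hz
    have hz0 : z.re = 0 := hz
    have e1 : ‖u z‖ ^ 2 = Is := by
      rw [norm_sq_eq]
      apply integral_congr_ae
      filter_upwards [hu_ae z] with x hx
      rw [hx, norm_phi hp hz0.ge, hz0, ← Real.rpow_natCast, ← Real.rpow_mul (norm_nonneg _)]
      congr 1
      push_cast
      ring
    have e2 : ‖w z‖ ^ 2 = It := by
      rw [norm_sq_eq]
      apply integral_congr_ae
      filter_upwards [hw_ae z] with x hx
      rw [hx, Complex.norm_conj, norm_phi hp hz0.ge, hz0, ← Real.rpow_natCast,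
        ← Real.rpow_mul (norm_nonneg _), Complex.norm_conj]
      congr 1
      push_cast
      ring
    rw [hFeq, ← e1, ← e2, ← mul_pow, ← Real.rpow_natCast, ← Real.rpow_mul (by positivity)]
    refine (norm_inner_le_norm _ _).trans ?_
    have := hM (u z)
    calc ‖w z‖ * ‖A (u z)‖ ≤ ‖w z‖ * (M * ‖u z‖) := by gcongr
      _ = _ := by
        norm_num
        ring
  have hb : ∀ z ∈ Complex.re ⁻¹' {1}, ‖F z‖ ≤ Is * It := by
    intro z hz
    have hz0 : z.re = 1 := hz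
    have hz1 : 0 ≤ z.re := by rw [hz0]; exact zero_le_one
    have hpe : p * (1 + z.re) / 2 = p := by rw [hz0]; ring
    have iu : Integrable (u z : X → ℂ) μ := by
      refine Integrable.congr ?_ (hu_ae z).symm
      exact (SimpleFunc.FinMeasSupp.map (SimpleFunc.integrable_iff_finMeasSupp.1 hs)
        (phi_zero p z)).integrable
    have iw : Integrable (w z : X → ℂ) μ := by
      refine Integrable.congr ?_ (hw_ae z).symm
      exact (SimpleFunc.FinMeasSupp.map (g := fun b => conj (phi p z (conj b)))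
        (SimpleFunc.integrable_iff_finMeasSupp.1 ht) (by simp [phi_zero])).integrable
    have e1 : ∫ y, ‖u z y‖ ∂μ = Is := by
      apply integral_congr_ae
      filter_upwards [hu_ae z] with x hx
      rw [hx, norm_phi hp hz1, hpe]
    have e2 : ∫ y, ‖w z y‖ ∂μ = It := by
      apply integral_congr_ae
      filter_upwards [hw_ae z] with x hx
      rw [hx, Complex.norm_conj, norm_phi hp hz1, hpe, Complex.norm_conj]
    rw [hFeq, L2.inner_def, ← e2, ← integral_const_mul]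
    apply norm_integral_le_of_norm_le (iw.norm.const_mul _)
    filter_upwards [h1 (u z) iu] with x hx
    refine (norm_inner_le_norm _ _).trans ?_
    rw [mul_comm, ← e1]
    gcongr
  have hθ : ((2 / p - 1 : ℝ) : ℂ) ∈ Complex.HadamardThreeLines.verticalClosedStrip 0 1 := by
    simp only [Complex.HadamardThreeLines.verticalClosedStrip, mem_preimage, Complex.ofReal_re,
      mem_Icc]
    constructor
    · rw [sub_nonneg, le_div_iff₀ hp]; linarith
    · rw [sub_le_iff_le_add, div_le_iff₀ hp]; linarith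
  have key := Complex.HadamardThreeLines.norm_le_interp_of_mem_verticalClosedStrip₀₁' F hθ
    hdiff.diffContOnCl hbdd ha hb
  have hu' : u ((2 / p - 1 : ℝ) : ℂ) = f := by
    apply Lp.ext
    filter_upwards [hu_ae ((2 / p - 1 : ℝ) : ℂ), hf] with x e1 e2
    rw [e1, e2, phi_theta hp]
  have hw' : w ((2 / p - 1 : ℝ) : ℂ) = g := by
    apply Lp.ext
    filter_upwards [hw_ae ((2 / p - 1 : ℝ) : ℂ), hg] with x e1 e2
    rw [e1, e2, phi_theta hp, Complex.conj_conj]
  rw [hFeq, hu', hw', Complex.ofReal_re] at key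
  refine key.trans (le_of_eq ?_)
  have hI : 0 ≤ Is * It := mul_nonneg hIs0 hIt0
  rw [Real.mul_rpow hM0 (by positivity), ← Real.rpow_mul hI, ← Real.mul_rpow hIs0 hIt0, mul_assoc,
    ← Real.rpow_add_of_nonneg hI]
  · congr 2
    · ring
    · field_simp
      ring
  · have : 2 / p ≤ 2 := by rw [div_le_iff₀ hp]; linarith
    have : 0 ≤ 1 - (2 / p - 1) := by linarith
    positivity
  · rw [sub_nonneg, le_div_iff₀ hp]; linarith

lemma interp (A : Lp ℂ 2 μ →L[ℂ] Lp ℂ 2 μ) (M : ℝ) (hM0 : 0 ≤ M)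
    (hM : ∀ f, ‖A f‖ ≤ M * ‖f‖)
    (h1 : ∀ g : Lp ℂ 2 μ, Integrable g μ → ∀ᵐ x ∂μ, ‖A g x‖ ≤ ∫ y, ‖g y‖ ∂μ)
    {p : ℝ} (hp1 : 1 ≤ p) (hp2 : p ≤ 2) (f g : Lp ℂ 2 μ)
    (hf : MemLp (f : X → ℂ) (ENNReal.ofReal p) μ) (hg : MemLp (g : X → ℂ) (ENNReal.ofReal p) μ) :
    ‖⟪g, A f⟫_ℂ‖ ≤ M ^ (2 - 2 / p) *
      ((eLpNorm (f : X → ℂ) (ENNReal.ofReal p) μ).toReal *
        (eLpNorm (g : X → ℂ) (ENNReal.ofReal p) μ).toReal) := by
  have hp : 0 < p := by linarith
  have : Fact (1 ≤ ENNReal.ofReal p) := ⟨by simpa using hp1⟩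
  have hp0 : ENNReal.ofReal p ≠ 0 := by simpa using hp
  have approx : ∀ f : Lp ℂ 2 μ, MemLp (f : X → ℂ) (ENNReal.ofReal p) μ →
      ∃ (s : ℕ → SimpleFunc X ℂ) (F : ℕ → Lp ℂ 2 μ), (∀ n, Integrable (s n) μ) ∧
        (∀ n, (F n : X → ℂ) =ᵐ[μ] s n) ∧ Tendsto F atTop (𝓝 f) ∧
        Tendsto (fun n => (∫ x, ‖s n x‖ ^ p ∂μ) ^ p⁻¹) atTop
          (𝓝 (eLpNorm (f : X → ℂ) (ENNReal.ofReal p) μ).toReal) := by
    intro f hf
    have fm : Measurable (f : X → ℂ) := (Lp.stronglyMeasurable f).measurable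
    refine ⟨fun n => SimpleFunc.approxOn f fm (range f ∪ {0}) 0 (by simp) n,
      fun n => (SimpleFunc.memLp_approxOn_range fm (Lp.memLp f) n).toLp _, fun n => ?_,
      fun n => MemLp.coeFn_toLp _, ?_, ?_⟩
    · exact (SimpleFunc.memLp_iff_integrable (p := 2) (by simp) (by simp)).1
        (SimpleFunc.memLp_approxOn_range fm (Lp.memLp f) n)
    · have := SimpleFunc.tendsto_approxOn_range_Lp (p := 2) (by simp) fm (Lp.memLp f)
      rwa [Lp.toLp_coeFn] at this
    · have := (SimpleFunc.tendsto_approxOn_range_Lp ENNReal.ofReal_ne_top fm hf).norm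
      rw [Lp.norm_toLp] at this
      refine this.congr fun n => ?_
      rw [Lp.norm_toLp, (SimpleFunc.memLp_approxOn_range fm hf n).eLpNorm_eq_integral_rpow_norm
        hp0 ENNReal.ofReal_ne_top, ENNReal.toReal_ofReal hp.le, ENNReal.toReal_ofReal]
      exact Real.rpow_nonneg (integral_nonneg fun x => by positivity) _
  obtain ⟨s, F, hs, hF, hFt, hst⟩ := approx f hf
  obtain ⟨t, G, ht, hG, hGt, htt⟩ := approx g hg
  refine le_of_tendsto_of_tendsto' (b := atTop)
    ((hGt.inner (𝕜 := ℂ) ((A.continuous.tendsto f).comp hFt)).norm)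
    ((hst.mul htt).const_mul _) fun n => ?_
  exact interp_simple A M hM0 hM h1 hp1 hp2 (s n) (t n) (hs n) (ht n) (F n) (G n) (hF n) (hG n)

theorem admissible_of_special {k : ℝ} (hk : 0 < k) {A : Lp ℂ 2 μ ≃L[ℂ] Lp ℂ 2 μ}
    (hA : IsSpecialHadamard μ k A) {p : ℝ} (hp1 : 1 ≤ p) (hp2 : p ≤ 2) :
    Admissible μ A p (k ^ (1 / p - 1 / 2)) := by
  have hp : 0 < p := by linarith
  refine ⟨Real.rpow_pos_of_pos hk _, fun f hf0 hf hAf => ?_⟩
  have hnorm : ∀ f, ‖A f‖ = √k * ‖f‖ := by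
    intro f
    have e1 : ⟪A f, A f⟫_ℂ = (k : ℂ) * ⟪f, f⟫_ℂ := by
      have := ContinuousLinearMap.adjoint_inner_right (A : Lp ℂ 2 μ →L[ℂ] Lp ℂ 2 μ) f (A f)
      rw [hA.adjoint_eq] at this
      simp only [smul_apply, ContinuousLinearEquiv.coe_coe, ContinuousLinearEquiv.symm_apply_apply,
        inner_smul_right] at this
      exact this.symm
    rw [inner_self_eq_norm_sq_to_K, inner_self_eq_norm_sq_to_K] at e1
    have e2 : ‖A f‖ ^ 2 = k * ‖f‖ ^ 2 := by
      have e3 : ((‖A f‖ ^ 2 : ℝ) : ℂ) = ((k * ‖f‖ ^ 2 : ℝ) : ℂ) := by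
        push_cast
        exact e1
      exact_mod_cast e3
    rw [← sq_eq_sq₀ (norm_nonneg _) (by positivity), mul_pow, Real.sq_sqrt hk.le, e2]
  have h1 : ∀ g : Lp ℂ 2 μ, Integrable g μ →
      ∀ᵐ x ∂μ, ‖(A : Lp ℂ 2 μ →L[ℂ] Lp ℂ 2 μ) g x‖ ≤ ∫ y, ‖g y‖ ∂μ := by
    intro g hg
    obtain ⟨A₁, hA₁, hcomp⟩ := hA.1
    have e1 := hcomp (hg.toL1 _) g hg.coeFn_toL1
    have e2 : ‖A₁ (hg.toL1 _)‖ ≤ ∫ y, ‖g y‖ ∂μ := by
      refine (A₁.le_opNorm _).trans ?_
      rw [← L1.norm_of_fun_eq_integral_norm hg]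
      exact mul_le_of_le_one_left (norm_nonneg _) hA₁
    filter_upwards [e1, ae_le_eLpNormEssSup (f := (A₁ (hg.toL1 _) : X → ℂ)) (μ := μ)] with x e3 e4
    rw [← e3]
    refine le_trans ?_ e2
    rw [Lp.norm_def, eLpNorm_exponent_top, ← toReal_enorm]
    refine ENNReal.toReal_mono ?_ e4
    rw [← eLpNorm_exponent_top]
    exact (Lp.memLp _).2.ne
  have key := interp (A : Lp ℂ 2 μ →L[ℂ] Lp ℂ 2 μ) (√k) (Real.sqrt_nonneg _)
    (fun f => (hnorm f).le) h1 hp1 hp2 f (A f) hf hAf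
  rw [ContinuousLinearEquiv.coe_coe, inner_self_eq_norm_sq_to_K] at key
  have hsk : 0 < √k := Real.sqrt_pos.2 hk
  have hfn : 0 < ‖f‖ := norm_pos_iff.2 hf0
  rw [← Lp.norm_def, ← Lp.norm_def, le_div_iff₀ (by rw [hnorm]; positivity)]
  have e1 : ‖((‖A f‖ : ℝ) : ℂ) ^ 2‖ = ‖A f‖ ^ 2 := by simp
  have key2 : ‖A f‖ ^ 2 ≤ √k ^ (2 - 2 / p) *
      ((eLpNorm (f : X → ℂ) (ENNReal.ofReal p) μ).toReal *
        (eLpNorm (A f : X → ℂ) (ENNReal.ofReal p) μ).toReal) := e1 ▸ key
  have e2 : 0 < √k ^ (2 - 2 / p) := Real.rpow_pos_of_pos hsk _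
  refine le_of_mul_le_mul_left (le_trans (le_of_eq ?_) key2) e2
  have e3 : √k ^ (2 - 2 / p) * k ^ (1 / p - 1 / 2) = √k := by
    rw [Real.sqrt_eq_rpow, ← Real.rpow_mul hk.le, ← Real.rpow_add hk]
    congr 1
    ring
  rw [← mul_assoc, e3, hnorm]
  ring

theorem regular_of_one_lt {k : ℝ} (hk : 1 < k) {A : Lp ℂ 2 μ ≃L[ℂ] Lp ℂ 2 μ}
    (hA : IsSpecialHadamard μ k A) : HasRegularConstants μ A := by
  have hk0 : 0 < k := by linarith
  have hd : ∀ p : ℝ, p ≠ 0 → DifferentiableAt ℝ (fun p : ℝ => k ^ (1 / p - 1 / 2)) p := by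
    intro p hp
    apply DifferentiableAt.rpow (differentiableAt_const _) _ hk0.ne'
    fun_prop (disch := exact hp)
  refine ⟨1, one_pos, le_rfl, fun p => k ^ (1 / p - 1 / 2), fun p hp => ?_, by simp, ?_, ?_, ?_⟩
  · exact admissible_of_special hk0 hA (by linarith [hp.1]) hp.2
  · have := (hd 2 two_ne_zero).continuousAt.tendsto
    simp only [sub_self, Real.rpow_zero] at this
    exact this.mono_left nhdsWithin_le_nhds
  · intro p hp
    exact (hd p (by linarith [hp.1])).differentiableWithinAt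
  · intro p hp q hq hpq
    apply Real.rpow_lt_rpow_of_exponent_lt hk
    have := one_div_lt_one_div_of_lt (by linarith [hp.1] : 0 < p) hpq
    linarith

end Pool.Agent.MP_977787_an

end
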